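import Pool.Agent.TH791.NSA.Main
import Pool.Agent.W795.ES.Pub
import Pool.Agent.W12.TQ.Iter
import Pool.Agent.W347.TQ.Ode
import Pool.Agent.W52.TQ.Univ
import Pool.Agent.W775.TQ.Dtp
import Pool.Agent.W503.TQ.Est1
import Pool.Agent.W790.TQ.Est2
import Pool.Agent.W52.TQ.Loc
import Pool.Agent.W503.TQ.Uni

/-!
Criteria of regularity for the Navier-Stokes equations with Dirichlet boundary conditions in terms
of the local acceleration `w = ∂_t u`.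
-/

set_option autoImplicit false

open MeasureTheory Set
open scoped InnerProductSpace ENNReal ContDiff

namespace Pool.Agent.Results.MP_fd8964_an.AccelerationLines

open H772R2.NS.Pub Pool.Agent.W795.TQ
open Pool.Agent.TH791.NSA (adv trSq)

/-- Let `u` be a Leray-Hopf solution on `[0,T]` with admissible data in a bounded open set `Ω`, and
`w = ∂_t u`. Either `u` is a strong solution on `[0,T]`, or there is a first singular time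
`τ ∈ (0,T]` with the following property. Let `0 < δ ≤ 1`, `M ≥ 0`, `3/2 < r ≤ ∞`,
`2/s + 3/r = 2`, `6 < b ≤ ∞`, `2/a + 3/b = 1/2`, `0 ≤ t₁ < τ`. There is `C` such that, whenever
`P, Q, L ≥ 0`, `P^s + Q^a + L` is locally integrable on `[t₁,τ)` and for almost every `t ∈ (t₁,τ)`
* `‖ρ(t)‖_{L^r} ≤ P(t)`, `‖g(t)‖_{L^b} ≤ Q(t)`,
* `∫ |η(t)| |φ|² ≤ (δ/2) ν ∫ |∇φ|² + L(t) ∫ |φ|²` for `φ ∈ V`,
* there are numbers `|θ|, |λ| ≤ M`, `|κ| ≤ 1` with, for almost every `x` with `|w| > M` and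
  `|v| > M`, where `v = u - θw`,
  `v·((w·∇)w) - λ w·((v·∇)w) ≤ (1 - δ) ν (|∇w|² + κ tr (∇w)²) + (ρ + η) |w|² + g |u| |w|²`,
one has `log (1/(τ - t)) ≤ C (1 + ∫_{t₁}^t (P^s + Q^a + L))` for `t < τ` arbitrarily close to
`τ`. -/
theorem result :
    ∀ (Ω : Set R3), IsOpen Ω → Bornology.IsBounded Ω → ∀ (ν T : ℝ), 0 < ν → 0 < T →
    ∀ (F F' : ℝ → L2 Ω Mat), IsH1 T F F' →
    ∀ (u : ℝ → L2 Ω R3) (G : ℝ → L2 Ω Mat), IsLerayHopf Ω ν T F u G →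
    ∀ z0 : L2 Ω Mat, (u 0, z0) ∈ H1graph Ω →
    (∃ g : L2 Ω R3, ∀ φ, IsTest Ω φ → rhs ν (u 0) z0 (F 0) φ = ∫ x in Ω, ⟪g.fn x, φ x⟫_ℝ) →
    (∃ G1 G', IsStrong Ω ν T F u (deriv u) G1 G') ∨
    ∃ τ ∈ Ioc 0 T, (∀ t ∈ Ioo 0 τ, ∃ G1 G', IsStrong Ω ν t F u (deriv u) G1 G') ∧
      ∀ (δ M : ℝ) (r b : ℝ≥0∞) (s a t1 : ℝ), 0 < δ → δ ≤ 1 → 0 ≤ M →
        3 / 2 < r → 2 / s + 3 / r.toReal = 2 → 6 < b → 2 / a + 3 / b.toReal = 1 / 2 →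
        0 ≤ t1 → t1 < τ →
      ∃ C : ℝ, ∀ (ρ η g : ℝ → R3 → ℝ) (P Q L : ℝ → ℝ),
        (∀ t, 0 ≤ P t) → (∀ t, 0 ≤ Q t) → (∀ t, 0 ≤ L t) →
        (∀ t ∈ Ioo t1 τ, IntervalIntegrable (fun y => P y ^ s + Q y ^ a + L y) volume t1 t) →
        (∀ᵐ t ∂(volume.restrict (Ioo t1 τ)),
          AEStronglyMeasurable (ρ t) (volume.restrict Ω) ∧
          AEStronglyMeasurable (g t) (volume.restrict Ω) ∧
          eLpNorm (ρ t) r (volume.restrict Ω) ≤ ENNReal.ofReal (P t) ∧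
          eLpNorm (g t) b (volume.restrict Ω) ≤ ENNReal.ofReal (Q t) ∧
          ∀ p ∈ H1graph Ω, Integrable (fun x => |η t x| * ‖p.1.fn x‖ ^ 2) (volume.restrict Ω) ∧
            (∫ x in Ω, |η t x| * ‖p.1.fn x‖ ^ 2) ≤ δ / 2 * ν * ‖p.2‖ ^ 2 + L t * ‖p.1‖ ^ 2) →
        (∀ᵐ t ∂(volume.restrict (Ioo t1 τ)), ∀ A : L2 Ω Mat, (deriv u t, A) ∈ H1graph Ω →
          ∃ θ lam κ : ℝ, |θ| ≤ M ∧ |lam| ≤ M ∧ |κ| ≤ 1 ∧ ∀ᵐ x ∂(volume.restrict Ω),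
            ∀ w v : R3, w = (deriv u t).fn x → v = (u t).fn x - θ • w → M < ‖w‖ → M < ‖v‖ →
              adv (A.fn x) v w - lam * adv (A.fn x) w v
                ≤ (1 - δ) * ν * (‖A.fn x‖ ^ 2 + κ * trSq (A.fn x)) +
                  (ρ t x + η t x) * ‖w‖ ^ 2 + g t x * ‖(u t).fn x‖ * ‖w‖ ^ 2) →
        ∀ t0 < τ, ∃ t ∈ Ioo t0 τ, t1 < t ∧
          Real.log (1 / (τ - t)) ≤ C * (1 + ∫ y in t1..t, (P y ^ s + Q y ^ a + L y)) := by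
  intro Ω hΩ hb ν T hν hT F F' hF u G L z0 h0 hg
  obtain ⟨g, hg'⟩ := hg
  rcases Pool.Agent.TH791.NSA.al_mid Pool.Agent.W12.TQ.proof Pool.Agent.W347.TQ.proof_ode
    Pool.Agent.W775.TQ.proof_dtp Pool.Agent.W503.TQ.proof_est1 Pool.Agent.W790.TQ.proof_est2
    Pool.Agent.W52.TQ.proof_loc Pool.Agent.W503.TQ.proof_uni Pool.Agent.W52.TQ.proof_univ
    Ω hΩ hb ν T hν hT F F' hF.memLp hF.prim u G L.meas
    (by
      filter_upwards [L.grad] with t ht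
      exact mem_pub.mpr ht) L.gradL2
    (fun φ hφ t ht => L.eqn φ ((isTest_iff φ).mpr hφ) t ht) L.energy z0 (mem_pub.mpr h0)
    ⟨g, fun φ hφ => hg' φ ((isTest_iff φ).mpr hφ)⟩ with h1 | ⟨τ, hτ, h1, h2⟩
  · exact Or.inl h1
  refine Or.inr ⟨τ, hτ, h1, ?_⟩
  intro δ M r b s a t1 hδ hδ1 hM hr hs hb' ha ht1 ht1τ
  obtain ⟨C, hC⟩ := h2 δ M r b s a t1 hδ hδ1 hM hr hs hb' ha ht1 ht1τ
  refine ⟨C, fun ρ η g P Q L hP hQ hL hPQ hn hcr t0 ht0 =>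
    hC ρ η g P Q L hP hQ hL hPQ ?_ ?_ t0 ht0⟩
  · filter_upwards [hn] with t ht
    exact ⟨ht.1, ht.2.1, ht.2.2.1, ht.2.2.2.1, fun p hp => ht.2.2.2.2 p (mem_pub.mp hp)⟩
  filter_upwards [hcr] with t ht
  intro A hA
  obtain ⟨θ, lam, κ, n1, n2, n3, n4⟩ := ht A (mem_pub.mp hA)
  refine ⟨θ, lam, κ, n1, n2, n3, ?_⟩
  filter_upwards [n4] with x hx
  intro h3 h4
  have h5 := hx _ _ rfl rfl h3 h4
  have e1 := Pool.Agent.TH791.NSA.trSq_eq (A x)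
  have e2 := Pool.Agent.TH791.NSA.adv_eq (A x)
  rw [← e1, ← e2, ← e2]
  exact h5

end Pool.Agent.Results.MP_fd8964_an.AccelerationLines
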