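import Pool.Agent.TH305.DR.Fin3

/-!
Interior estimates at every time and every small scale, for all derivatives, for smooth solutions
of the Navier-Stokes equations in a domain `Ω`. No boundary condition is used.

`V = Fin 3 → ℝ` with the maximum norm. See the claim file for the definitions.
-/

open MeasureTheory Set Metric
open scoped ENNReal

namespace Pool.Agent.Results.MP_fd8964_an.InteriorDerivatives

open H459R3.NS W221.NS Pool.Agent.TH305.DR

/-- There are an absolute constant `C` and constants `K n` such that for every compact subset `Q` of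
an open set `Ω` there is a constant `A` with the following properties. Let `(u, p)` be a smooth
solution of the Navier-Stokes equations with viscosity `ν`, without force, on `(0, T) × Ω`, with
`∫ |u|² ≤ E²` over `Ω` at all times.

First, for each time `s < T` and each `r > 0` with `256 r² / ν < s` and `A (1 + E / ν)² r ≤ 1`, the
`r`-neighbourhood of the set of the points of `Q` at which for some `n ≥ 0` a derivative of order
`n` of the vorticity of `u s` exceeds `K n ν / r ^ (n + 2)` has volume at most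
`(C / ν) r² ∫∫ |∇u|²` over `(s - 256 r² / ν, s) × Ω`; for the set of the points of `Q` at which for
some `n ≥ 1` a derivative of order `n` of `u s` exceeds `K n ν / r ^ (n + 1)` the bound is the same
plus `C (E r / ν)²`.

Second, if `∫∫ |∇u|²` over `(0, T) × Ω` is finite, then for each `n` the volume of the set of the
points of `Q` at which a derivative of order `n` of the vorticity exceeds `a` is at most
`ε a ^ (-2 / (n + 2))` for all large `a`, uniformly in time on `(s₀, T)`, for all `s₀, ε > 0`. -/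
theorem result : ∃ C : ℝ, 0 < C ∧ ∃ K : ℕ → ℝ, (∀ n, 0 < K n) ∧
    ∀ Ω Q : Set V, IsOpen Ω → IsCompact Q → Q ⊆ Ω → ∃ A : ℝ, 0 < A ∧
      ∀ (ν T E : ℝ) (u : ℝ → V → V) (p : ℝ → V → ℝ), 0 < ν → 0 ≤ E → OSol ν T E Ω u p →
      (∀ r s : ℝ, 0 < r → A * (1 + E / ν) ^ 2 * r ≤ 1 → 256 * r ^ 2 / ν < s → s < T →
        volume (thickening r (badW K ν r (u s) ∩ Q)) ≤ ENNReal.ofReal (C / ν * r ^ 2) *
          ∫⁻ t in Ioo (s - 256 * r ^ 2 / ν) s, ∫⁻ y in Ω, ENNReal.ofReal (gsq (u t) y) ∧
        volume (thickening r (badV K ν r (u s) ∩ Q)) ≤ ENNReal.ofReal (C * (E * r / ν) ^ 2)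
          + ENNReal.ofReal (C / ν * r ^ 2) *
            ∫⁻ t in Ioo (s - 256 * r ^ 2 / ν) s, ∫⁻ y in Ω, ENNReal.ofReal (gsq (u t) y)) ∧
      (∫⁻ t in Ioo 0 T, ∫⁻ y in Ω, ENNReal.ofReal (gsq (u t) y) ≠ ⊤ →
        ∀ (n : ℕ) (s₀ ε : ℝ), 0 < s₀ → 0 < ε → ∃ L : ℝ, 0 < L ∧ ∀ a : ℝ, L ≤ a →
          ∀ s ∈ Ioo s₀ T, volume (Big n a (u s) ∩ Q)
            ≤ ENNReal.ofReal (ε * a ^ (-(2 / (n + 2) : ℝ)))) := by
  obtain ⟨C, hC, K, hK, -, -, H⟩ := Pool.Agent.TH305.DR.final
  exact ⟨C, hC, K, hK, H⟩

end Pool.Agent.Results.MP_fd8964_an.InteriorDerivatives
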