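import Pool.Agent.TH305.LW.Fin5
import Pool.Agent.TH305.LW.LogG

/-!
The interior singular set of a solution of the Navier-Stokes equations in a domain `Ω` at its first
singular time `T`: on each compact subset of `Ω`, the inverse square of the distance to it is
integrable, its Hausdorff measure vanishes for each gauge `h` with `∫ dr / h(r) = ∞`, and the
dissipation in late time windows, weighted by a power of `T - t`, bounds the number of interior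
singular points. No boundary condition is used.

`V = Fin 3 → ℝ` with the maximum norm. See the claim file for the definitions.
-/

open MeasureTheory Set Metric Filter Topology
open scoped ContDiff ENNReal

namespace Pool.Agent.Results.MP_fd8964_an.InteriorSingularSet

open H459R3.NS W221.NS

theorem result : ∃ C : ℝ, 0 < C ∧
    ∀ (ν T E F : ℝ) (Ω K : Set V) (u : ℝ → V → V) (p : ℝ → V → ℝ) (f : ℝ → V → V), 0 < ν →
      0 < T → OSolF ν T E F Ω u p f → IsCompact K → K ⊆ Ω →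
      ∫⁻ t in Ioo 0 T, ∫⁻ y in Ω, ENNReal.ofReal (gsq (u t) y) ≠ ⊤ →
      (∃ r₀ : ℝ, 0 < r₀ ∧ ∀ r : ℝ, 0 < r → r < r₀ →
        (∀ S : Finset V, (∀ x ∈ S, x ∈ K ∧ Sing T u x) →
          (∀ x ∈ S, ∀ y ∈ S, x ≠ y → r ≤ ‖x - y‖) →
            ENNReal.ofReal (S.card * r) ≤ ENNReal.ofReal (C / ν) *
              ∫⁻ t in Ioo (T - 256 * r ^ 2 / ν) T,
                ENNReal.ofReal ((ν * (T - t) / r ^ 2) ^ (1 / 1152 : ℝ)) *
                  ∫⁻ y in Ω, ENNReal.ofReal (gsq (u t) y)) ∧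
        ∫⁻ x in thickening r {x ∈ K | Sing T u x}, (infEDist x {x ∈ K | Sing T u x} ^ 2)⁻¹
          ≤ ENNReal.ofReal (C / ν) * ∫⁻ t in Ioo (T - 256 * r ^ 2 / ν) T,
            ∫⁻ y in Ω, ENNReal.ofReal (gsq (u t) y)) ∧
      (∀ h : ℝ≥0∞ → ℝ≥0∞, Monotone h → ∫⁻ r in Ioo (0 : ℝ) 1, (h (ENNReal.ofReal r))⁻¹ = ⊤ →
        Measure.mkMetric h {x ∈ K | Sing T u x} = 0) ∧
      Measure.mkMetric (fun d => d * ENNReal.ofReal (1 + Real.posLog d.toReal⁻¹))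
        {x ∈ K | Sing T u x} = 0 ∧
      ∀ M : ℝ, 0 ≤ M → ((∃ᶠ h in 𝓝[>] (0 : ℝ), ∫⁻ t in Ioo (T - h) T,
          ENNReal.ofReal (((T - t) / h) ^ (1 / 1152 : ℝ)) *
            ∫⁻ y in Ω, ENNReal.ofReal (gsq (u t) y) ≤ ENNReal.ofReal (M * √h)) ∨
          ∃ᶠ h in 𝓝[>] (0 : ℝ), ∫⁻ t in Ioo (T - h) (T - h ^ 577),
            ∫⁻ y in Ω, ENNReal.ofReal (gsq (u t) y) ≤ ENNReal.ofReal (M * √h)) →
        ∀ S : Finset V, (∀ x ∈ S, x ∈ Ω ∧ Sing T u x) → (S.card : ℝ) ≤ C * M / (ν * √ν) := by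
  obtain ⟨C, hC, H⟩ := Pool.Agent.TH305.LW.omega_final5
  refine ⟨C, hC, ?_⟩
  intro ν T E F Ω K u p f hν hT hu hK hKΩ hfin
  obtain ⟨⟨ρ, hρ, ha⟩, hb, hc⟩ := H ν T E F Ω K u p f hν hT hu (Or.inl ⟨hK, hKΩ⟩) hfin
  exact ⟨⟨ρ, hρ, fun r hr hrr => (ha r hr hrr).2⟩, hb,
    hb _ Pool.Agent.TH305.LW.lg_mono Pool.Agent.TH305.LW.lg_div, hc⟩

end Pool.Agent.Results.MP_fd8964_an.InteriorSingularSet
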