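import Pool.Agent.TH340.FF.LH3

/-!
# Particles which approach each other at most diffusively

A one-sided regularity criterion, scale invariant and valid up to the boundary, for Leray-Hopf
solutions of the Navier-Stokes equations in an arbitrary bounded open set `Ω ⊆ ℝ³`: at a first
singular time `τ` it cannot happen that near `τ` almost all pairs of points `x, y ∈ ℝ³` at
distance less than `k √(ν (τ - t))` satisfy

`(x - y)·(u(x, t) - u(y, t)) ≥ -c ν - b |x - y|² / (τ - t)`,  `c < 2 (log 2)²`, `b + 4 c / k² < 3/10`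

(`u = 0` outside `Ω`). So fluid particles must approach each other faster than by a diffusion, with
an explicit constant. The same holds for the separation of particles, with `c / 4` and `b / 2`
instead of `c` and `b`; which of the two bounds holds may depend on time. More generally, `b / (τ-t)`
is replaced by a function of time, the integral of which must grow like `(3/10) log (1/(τ - t))`.
There is no bound for single derivatives and no two-sided bound for the velocity.

The main point is a form inequality for the strain `S` of a divergence free field `u`: the condition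
`(x - y)·(u(x) - u(y)) ≥ -κ - B |x - y|²` for pairs implies
`-∫ v·S v ≤ κ / (2 (log 2)²) ∫ |∇v|² + (5/2) B ∫ |v|²` for all `v ∈ H¹_{0,σ}`. It is proved by
transport: the square of a function of one variable is the superposition of the indicator functions
of intervals, in the first in, first out order, so that `∫ h (f²)' ≤ κ / (log 2)² ∫ f'²` if
`h(a) - h(b) ≤ κ / (b - a)` for `a < b`; this is used on all lines in seven directions which form a
spherical design with weights. The form inequality is combined with the instability result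
`EnergyStability` of the library.
-/

set_option autoImplicit false

open MeasureTheory Set
open scoped InnerProductSpace ENNReal ContDiff

namespace Pool.Agent.Results.MP_fd8964_an.PairApproach

open H772R2.NS.Pub Pool.Agent.W795.TQ Pool.Agent.TH340.FF

/-- Let `u` be a Leray-Hopf solution on `[0,T]` with admissible data in a bounded open set `Ω`.
Then either `u` is a strong solution on `[0,T]`, or there is a first singular time `τ ∈ (0,T]` with
the following properties, for every `c ∈ [0, 2 (log 2)²)`.
(1) For `0 ≤ s < τ` there is a number `M` such that, whenever `β ≥ 0` is locally integrable on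
`[s,τ)` and the condition `SlowPairs c ν (β t) (u t)` holds for almost every `t ∈ (s,τ)`, one has
`∫_s^t β ≥ (3/10) log (1/(τ - t)) - M` for `t < τ` arbitrarily close to `τ`.
(2) If `b ≥ 0`, `k > 0` and `b + 4 c / k² < 3/10`, it is impossible that for almost every `t` in
an interval `(t₁,τ)` particles at distance less than `k √(ν (τ - t))` approach slowly, with the
constants `c ν` and `b / (τ - t)`, or separate slowly, with the constants `c ν / 4` and
`b / (2 (τ - t))`. -/
theorem result :
    ∀ (Ω : Set R3), IsOpen Ω → Bornology.IsBounded Ω → ∀ (ν T : ℝ), 0 < ν → 0 < T →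
    ∀ (F F' : ℝ → L2 Ω Mat), IsH1 T F F' →
    ∀ (u : ℝ → L2 Ω R3) (G : ℝ → L2 Ω Mat), IsLerayHopf Ω ν T F u G →
    ∀ z0 : L2 Ω Mat, (u 0, z0) ∈ H1graph Ω →
    (∃ g : L2 Ω R3, ∀ φ, IsTest Ω φ → rhs ν (u 0) z0 (F 0) φ = ∫ x in Ω, ⟪g.fn x, φ x⟫_ℝ) →
    (∃ u' G1 G', IsStrong Ω ν T F u u' G1 G') ∨
    ∃ τ ∈ Ioc 0 T, (∀ t ∈ Ioo 0 τ, ∃ u' G1 G', IsStrong Ω ν t F u u' G1 G') ∧
      ∀ c : ℝ, 0 ≤ c → c < 2 * Real.log 2 ^ 2 →
        (∀ s ∈ Ico 0 τ, ∃ M : ℝ, ∀ β : ℝ → ℝ,
          (∀ t, 0 ≤ β t) → (∀ t ∈ Ioo s τ, IntervalIntegrable β volume s t) →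
          (∀ᵐ t ∂(volume.restrict (Ioo s τ)), SlowPairs c ν (β t) (u t)) →
          ∀ t0 < τ, ∃ t ∈ Ioo t0 τ, s < t ∧
            3 / 10 * Real.log (1 / (τ - t)) - M ≤ ∫ r in s..t, β r) ∧
        ∀ b k t1 : ℝ, 0 ≤ b → 0 < k → b + 4 * c / k ^ 2 < 3 / 10 → t1 < τ →
          ¬ ∀ᵐ t ∂(volume.restrict (Ioo t1 τ)),
            Approach (c * ν) (b / (τ - t)) (k * Real.sqrt (ν * (τ - t))) (u t) ∨
            Separate (c * ν / 4) (b / (2 * (τ - t))) (k * Real.sqrt (ν * (τ - t))) (u t) := by
  intro Ω hΩ hb ν T hν hT F F' hF u G L z0 h0 hg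
  rcases main Ω hΩ hb ν T hν hT F F' hF u G L z0 h0 hg with h1 | ⟨τ, hτ, h1, h2⟩
  · exact Or.inl h1
  · refine Or.inr ⟨τ, hτ, h1, fun c hc hc2 => ⟨h2 c hc hc2, ?_⟩⟩
    intro b k t1 hb hk hbk ht1 hyp
    exact explicit hν hτ.1 hc (h2 c hc hc2) hb hk hbk ht1 hyp

end Pool.Agent.Results.MP_fd8964_an.PairApproach
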